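import Pool.Agent.W482.LR.Stm

/-!
# Project LR (MP_4d246d_lc), part POT: the majority counter
-/

set_option autoImplicit false

namespace Pool.Agent.W683.LR

open Finset Pool.Agent.W482.LR

section

variable {X : Type} [DecidableEq X]

/-- the sign of the variable `l` -/
def sg (v : X → Bool) (l : X) : ℤ := if v l then -1 else 1

lemma sg_cases (v : X → Bool) (l : X) : sg v l = 1 ∨ sg v l = -1 := by
  unfold sg; split_ifs <;> simp

lemma mu_eq (B : ℕ → Finset X) (v : X → Bool) (i : ℕ) : mu B v i = ∑ l ∈ B i, sg v l := rfl

lemma up_iff (B : ℕ → Finset X) (K : ℕ) (v : X → Bool) (i : ℕ) (l : X) :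
    Up B K v i l ↔ 0 < sg v l * ww B K v (i + 1) := Iff.rfl

lemma mu_odd {B : ℕ → Finset X} {t : ℕ} (ht : 1 ≤ t) {i : ℕ} (h : (B i).card = 2 * t - 1)
    (v : X → Bool) : mu B v i % 2 = 1 := by
  have h1 : mu B v i = (B i).card - 2 * ∑ l ∈ B i, (if v l then (1 : ℤ) else 0) := by
    rw [mu_eq, Finset.mul_sum, Finset.card_eq_sum_ones]
    push_cast
    rw [← Finset.sum_sub_distrib]
    refine Finset.sum_congr rfl fun l _ => ?_
    unfold sg
    split_ifs <;> norm_num
  rw [h1, h]
  omega

lemma ww_top (B : ℕ → Finset X) (K : ℕ) (v : X → Bool) : ww B K v K = 1 := by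
  unfold ww; simp

lemma ww_succ (B : ℕ → Finset X) {K : ℕ} (v : X → Bool) {i : ℕ} (h : i < K) :
    ww B K v i = mu B v i * ww B K v (i + 1) := by
  unfold ww; exact Finset.prod_eq_prod_Ico_succ_bot h _

lemma ww_ne {B : ℕ → Finset X} {K t : ℕ} (ht : 1 ≤ t) (hB : ∀ i < K, (B i).card = 2 * t - 1)
    (v : X → Bool) (i : ℕ) : ww B K v i ≠ 0 := by
  unfold ww
  rw [Finset.prod_ne_zero_iff]
  intro k hk
  have := mu_odd ht (hB k (Finset.mem_Ico.1 hk).2) v
  omega

lemma geo (K : ℕ) : ∑ i ∈ range K, 2 ^ i + 1 = 2 ^ K := by
  induction K with
  | zero => simp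
  | succ K ih => rw [Finset.sum_range_succ, pow_succ]; omega

end

theorem pot : POT := by
  intro X _ B K t ht hB hdis
  constructor
  · intro v hv
    have hmu : ∀ i < K, 0 < mu B v i := by
      intro i hi
      rw [mu_eq]
      have h1 : ∑ l ∈ B i, sg v l = ∑ _l ∈ B i, (1 : ℤ) :=
        Finset.sum_congr rfl fun l hl => by unfold sg; rw [hv i hi l hl]; simp
      rw [h1, Finset.sum_const, hB i hi]
      simp only [nsmul_eq_mul, mul_one]
      omega
    have hw : ∀ i, 0 < ww B K v i := fun i =>
      Finset.prod_pos fun k hk => hmu k (Finset.mem_Ico.1 hk).2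
    unfold cnt
    have h2 : (∑ i ∈ range K, if 0 < ww B K v i then 2 ^ i else 0) = ∑ i ∈ range K, 2 ^ i :=
      Finset.sum_congr rfl fun i _ => by rw [if_pos (hw i)]
    rw [h2]
    have := geo K
    omega
  · intro v hpos
    have hex : ∃ i, i < K ∧ 0 < ww B K v i := by
      by_contra hcon
      push Not at hcon
      have : cnt B K v = 0 := by
        unfold cnt
        refine Finset.sum_eq_zero fun i hi => ?_
        rw [if_neg (not_lt.2 (hcon i (Finset.mem_range.1 hi)))]
      omega
    classical
    set i₀ := Nat.find hex with hi₀
    obtain ⟨hi₀K, hW₀⟩ := Nat.find_spec hex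
    rw [← hi₀] at hi₀K hW₀
    have hmin : ∀ i, i < i₀ → ww B K v i < 0 := by
      intro i hi
      have h1 := Nat.find_min hex hi
      have h2 : ¬ 0 < ww B K v i := fun h => h1 ⟨by omega, h⟩
      have h3 := ww_ne ht hB v i
      omega
    refine ⟨i₀, hi₀K, ?_, ?_⟩
    · set c := ww B K v (i₀ + 1) with hc
      have hc0 : c ≠ 0 := ww_ne ht hB v (i₀ + 1)
      have hcpos : 0 < |c| := abs_pos.2 hc0
      set U := (B i₀).filter (fun l => Up B K v i₀ l) with hU
      set U' := (B i₀).filter (fun l => ¬ Up B K v i₀ l) with hU'
      have hcard : U.card + U'.card = 2 * t - 1 := by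
        rw [← hB i₀ hi₀K, hU, hU']
        exact Finset.card_filter_add_card_filter_not _
      have hsum : ∑ l ∈ B i₀, sg v l * c = ww B K v i₀ := by
        rw [← Finset.sum_mul, ← mu_eq, ww_succ B v hi₀K]
      have hsplit : ∑ l ∈ B i₀, sg v l * c = ∑ l ∈ U, sg v l * c + ∑ l ∈ U', sg v l * c :=
        (Finset.sum_filter_add_sum_filter_not _ _ _).symm
      have h1 : ∑ l ∈ U, sg v l * c ≤ U.card * |c| := by
        rw [← nsmul_eq_mul, ← Finset.sum_const]
        refine Finset.sum_le_sum fun l _ => ?_
        rcases sg_cases v l with h | h <;> rw [h]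
        · rw [one_mul]; exact le_abs_self c
        · rw [neg_one_mul]; exact neg_le_abs c
      have h2 : ∑ l ∈ U', sg v l * c ≤ U'.card * (-|c|) := by
        rw [← nsmul_eq_mul, ← Finset.sum_const]
        refine Finset.sum_le_sum fun l hl => ?_
        have h3 : ¬ 0 < sg v l * c := (Finset.mem_filter.1 hl).2
        rcases sg_cases v l with h | h <;> rw [h] at h3 ⊢
        · rw [one_mul] at h3 ⊢
          rw [abs_of_nonpos (not_lt.1 h3)]
          linarith
        · rw [neg_one_mul] at h3 ⊢
          rw [abs_of_nonneg (by linarith [not_lt.1 h3])]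
      have h3 : 0 < ((U.card : ℤ) - U'.card) * |c| := by
        have := hW₀
        rw [← hsum, hsplit] at this
        linarith
      have h4 : 0 < (U.card : ℤ) - U'.card := by
        by_contra hcon
        have := mul_nonpos_of_nonpos_of_nonneg (not_lt.1 hcon) hcpos.le
        linarith
      obtain ⟨T, hT1, hT2⟩ := Finset.exists_subset_card_eq (show t ≤ U.card by omega)
      exact ⟨T, hT1.trans (Finset.filter_subset _ _), hT2, fun l hl =>
        (Finset.mem_filter.1 (hT1 hl)).2⟩
    · intro i hi l hl hup
      have hiK : i < K := by omega
      set v' := flp v l with hv'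
      have hvl : v' l = !v l := by rw [hv']; unfold flp; simp
      have hvn : ∀ m, m ≠ l → v' m = v m := fun m hm => by
        rw [hv']; unfold flp; simp [hm]
      have hmuk : ∀ k < K, k ≠ i → mu B v' k = mu B v k := by
        intro k hk hki
        rw [mu_eq, mu_eq]
        refine Finset.sum_congr rfl fun m hm => ?_
        have hml : m ≠ l := by
          rintro rfl
          exact (Finset.disjoint_left.1 (hdis k hk i hiK hki)) hm hl
        unfold sg
        rw [hvn m hml]
      have hmui : mu B v' i = mu B v i - 2 * sg v l := by
        rw [mu_eq, mu_eq, ← Finset.add_sum_erase _ _ hl, ← Finset.add_sum_erase _ _ hl]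
        have h1 : ∑ m ∈ (B i).erase l, sg v' m = ∑ m ∈ (B i).erase l, sg v m :=
          Finset.sum_congr rfl fun m hm => by
            unfold sg; rw [hvn m (Finset.ne_of_mem_erase hm)]
        have h2 : sg v' l = - sg v l := by
          unfold sg
          rw [hvl]
          cases v l <;> simp
        rw [h1, h2]
        ring
      have hgt : ∀ k, i < k → ww B K v' k = ww B K v k := by
        intro k hk
        unfold ww
        refine Finset.prod_congr rfl fun m hm => ?_
        have := Finset.mem_Ico.1 hm
        exact hmuk m this.2 (by omega)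
      have hle : ∀ k, k ≤ i → ∃ E : ℤ, ww B K v k = mu B v i * E ∧ ww B K v' k = mu B v' i * E := by
        intro k hk
        have hmem : i ∈ Finset.Ico k K := Finset.mem_Ico.2 ⟨hk, hiK⟩
        refine ⟨∏ m ∈ (Finset.Ico k K).erase i, mu B v m, ?_, ?_⟩
        · unfold ww
          rw [Finset.mul_prod_erase _ _ hmem]
        · unfold ww
          rw [← Finset.mul_prod_erase _ _ hmem]
          congr 1
          refine Finset.prod_congr rfl fun m hm => ?_
          rw [Finset.mem_erase, Finset.mem_Ico] at hm
          exact hmuk m hm.2.2 hm.1
      have hodd := mu_odd ht (hB i hiK) v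
      have hodd' := mu_odd ht (hB i hiK) v'
      by_cases hs : 0 < mu B v i * mu B v' i
      · -- the signs agree
        have hiff : ∀ k, (0 < ww B K v k ↔ 0 < ww B K v' k) := by
          intro k
          by_cases hk : k ≤ i
          · obtain ⟨E, e1, e2⟩ := hle k hk
            rw [e1, e2]
            rcases (mul_pos_iff.1 hs) with ⟨p1, p2⟩ | ⟨p1, p2⟩
            · rw [mul_pos_iff_of_pos_left p1, mul_pos_iff_of_pos_left p2]
            · constructor
              · intro h
                have : E < 0 := by
                  by_contra hE
                  have := mul_nonpos_of_nonpos_of_nonneg p1.le (not_lt.1 hE)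
                  linarith
                exact mul_pos_of_neg_of_neg p2 this
              · intro h
                have : E < 0 := by
                  by_contra hE
                  have := mul_nonpos_of_nonpos_of_nonneg p2.le (not_lt.1 hE)
                  linarith
                exact mul_pos_of_neg_of_neg p1 this
          · rw [hgt k (by omega)]
        have : cnt B K v' = cnt B K v := by
          unfold cnt
          refine Finset.sum_congr rfl fun k _ => ?_
          by_cases h : 0 < ww B K v k
          · rw [if_pos h, if_pos ((hiff k).1 h)]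
          · rw [if_neg h, if_neg (fun h' => h ((hiff k).2 h'))]
        omega
      · -- the signs differ
        have hmsg : mu B v i = sg v l := by
          rcases sg_cases v l with h | h
          · rw [h] at hmui ⊢
            have h1 : 0 < mu B v i := by
              by_contra hcon
              have h2 : mu B v i < 0 := by omega
              have h3 : mu B v' i < 0 := by omega
              exact hs (mul_pos_of_neg_of_neg h2 h3)
            have h2 : mu B v' i < 0 := by
              by_contra hcon
              have h3 : 0 < mu B v' i := by omega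
              exact hs (mul_pos h1 h3)
            omega
          · rw [h] at hmui ⊢
            have h1 : mu B v i < 0 := by
              by_contra hcon
              have h2 : 0 < mu B v i := by omega
              have h3 : 0 < mu B v' i := by omega
              exact hs (mul_pos h2 h3)
            have h2 : 0 < mu B v' i := by
              by_contra hcon
              have h3 : mu B v' i < 0 := by omega
              exact hs (mul_pos_of_neg_of_neg h1 h3)
            omega
        have hWi : 0 < ww B K v i := by
          rw [ww_succ B v hiK, hmsg]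
          exact hup
        have hii : i = i₀ := by
          by_contra hne
          have := hmin i (by omega)
          omega
        have hneg : ∀ k, k ≤ i → ww B K v' k = - ww B K v k := by
          intro k hk
          obtain ⟨E, e1, e2⟩ := hle k hk
          rw [e1, e2, hmui, hmsg]
          ring
        have hc1 : cnt B K v = 2 ^ i₀ + ∑ k ∈ Finset.Ico (i₀ + 1) K,
            (if 0 < ww B K v k then 2 ^ k else 0) := by
          unfold cnt
          rw [← Finset.sum_range_add_sum_Ico _ (show i₀ + 1 ≤ K by omega), Finset.sum_range_succ,
            if_pos hW₀, Finset.sum_eq_zero (s := range i₀), zero_add]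
          intro k hk
          have := hmin k (Finset.mem_range.1 hk)
          rw [if_neg (by omega)]
        have hc2 : cnt B K v' = ∑ k ∈ range i₀, 2 ^ k + ∑ k ∈ Finset.Ico (i₀ + 1) K,
            (if 0 < ww B K v k then 2 ^ k else 0) := by
          unfold cnt
          rw [← Finset.sum_range_add_sum_Ico _ (show i₀ + 1 ≤ K by omega), Finset.sum_range_succ]
          have h1 : ¬ 0 < ww B K v' i₀ := by
            rw [hneg i₀ hii.ge]; omega
          rw [if_neg h1, add_zero]
          congr 1
          · refine Finset.sum_congr rfl fun k hk => ?_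
            have h2 := hmin k (Finset.mem_range.1 hk)
            have h3 := Finset.mem_range.1 hk
            rw [if_pos (by rw [hneg k (by omega)]; omega)]
          · refine Finset.sum_congr rfl fun k hk => ?_
            rw [hgt k (by have := Finset.mem_Ico.1 hk; omega)]
        have hg := geo i₀
        omega

end Pool.Agent.W683.LR
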